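import Mathlib

set_option autoImplicit false

open Set

universe u

namespace Pool.Agent.Results.MP_54b381_gt.Embed

section Defs
variable {X : Type u} {X' : Type u}

def ball (E : Set (X × X)) (x : X) : Set X := {y | (x, y) ∈ E}

def comp (E E' : Set (X × X)) : Set (X × X) := {p | ∃ y, (p.1, y) ∈ E ∧ (y, p.2) ∈ E'}

structure IsCoarse (𝓔 : Set (Set (X × X))) : Prop where
  diag : ∀ E ∈ 𝓔, diagonal X ⊆ E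
  comp : ∀ E ∈ 𝓔, ∀ E' ∈ 𝓔, comp E E' ∈ 𝓔
  inv : ∀ E ∈ 𝓔, Prod.swap ⁻¹' E ∈ 𝓔
  sub : ∀ E ∈ 𝓔, ∀ E', diagonal X ⊆ E' → E' ⊆ E → E' ∈ 𝓔

/-- Linearly ordered coarse space: coarse, connected, with compatible order. -/
structure IsLOCoarse [LinearOrder X] (𝓔 : Set (Set (X × X))) : Prop where
  coarse : IsCoarse 𝓔
  conn : ∀ x y, ∃ E ∈ 𝓔, y ∈ ball E x
  compat : ∀ E ∈ 𝓔, ∃ F ∈ 𝓔, ∀ x y, x < y → y ∉ ball F x → ∀ x' ∈ ball E x, x' < y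

def HasIntervalBase [LinearOrder X] (𝓔 : Set (Set (X × X))) : Prop :=
  ∃ 𝓑 ⊆ 𝓔, (∀ E ∈ 𝓔, ∃ B ∈ 𝓑, E ⊆ B) ∧ ∀ B ∈ 𝓑, ∀ x, ∃ a b, a ≤ b ∧ ball B x = Icc a b

/-- The subspace structure on `Y`. -/
def restrict (𝓔 : Set (Set (X × X))) (Y : Set X) : Set (Set (Y × Y)) :=
  {G | ∃ E ∈ 𝓔, G = {p : Y × Y | ((p.1 : X), (p.2 : X)) ∈ E}}

def MacroUniform (𝓔 : Set (Set (X × X))) (𝓔' : Set (Set (X' × X'))) (f : X → X') : Prop :=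
  ∀ E ∈ 𝓔, ∃ E' ∈ 𝓔', ∀ x, f '' ball E x ⊆ ball E' (f x)

end Defs

variable {X : Type u} [LinearOrder X]

def lo (B : Set X) : LowerSet X ×ₗ Bool :=
  toLex (⟨{y | ∀ b ∈ B, y < b}, fun _ _ h hy b hb => h.trans_lt (hy b hb)⟩, true)

def hi (B : Set X) : LowerSet X ×ₗ Bool := toLex (lowerClosure B, false)

def I (B : Set X) := Icc (lo B) (hi B)

def conv (B : Set X) : Set X := {y | (∃ b ∈ B, b ≤ y) ∧ ∃ b ∈ B, y ≤ b}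

lemma I_mono {B B' : Set X} (h : B ⊆ B') : I B ⊆ I B' :=
  Icc_subset_Icc (Prod.Lex.toLex_mono ⟨fun y hy b hb => hy b (h hb), le_rfl⟩)
    (Prod.Lex.toLex_mono ⟨lowerClosure_mono h, le_rfl⟩)

lemma lo_le_hi {B B' : Set X} : lo B ≤ hi B' ↔ ∃ b ∈ B, ∃ b' ∈ B', b ≤ b' := by
  rw [lo, hi, Prod.Lex.toLex_le_toLex, ← not_le]
  constructor
  · rintro (h | h)
    · by_contra hc
      push Not at hc
      exact h fun y ⟨b', hb', hy⟩ b hb => hy.trans_lt (hc b hb b' hb')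
    · exact absurd h.2 (by simp)
  · rintro ⟨b, hb, b', hb', h⟩
    exact Or.inl fun hc => lt_irrefl b (hc (show b ∈ lowerClosure B' from ⟨b', hb', h⟩) b hb)

lemma hi_le_hi {x : X} {B : Set X} : hi {x} ≤ hi B ↔ ∃ b ∈ B, x ≤ b := by
  have : hi {x} ≤ hi B ↔ lowerClosure {x} ≤ lowerClosure B :=
    ⟨fun h => Prod.Lex.monotone_fst _ _ h, fun h => Prod.Lex.toLex_mono ⟨h, le_rfl⟩⟩
  rw [this, lowerClosure_singleton]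
  exact ⟨fun h => h (show x ∈ LowerSet.Iic x from le_rfl),
    fun ⟨b, hb, h⟩ y hy => ⟨b, hb, le_trans hy h⟩⟩

lemma emb_mem {x : X} {B : Set X} : hi {x} ∈ I B ↔ x ∈ conv B := by
  simp [I, conv, lo_le_hi, hi_le_hi]

lemma meet {B B' : Set X} {z} (h : z ∈ I B) (h' : z ∈ I B') : ∃ p ∈ conv B, p ∈ conv B' := by
  obtain ⟨a, ha, a', ha', h1⟩ := lo_le_hi.1 (h.1.trans h'.2)
  obtain ⟨b', hb', b, hb, h2⟩ := lo_le_hi.1 (h'.1.trans h.2)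
  rcases le_total a b' with e | e
  · exact ⟨b', ⟨⟨a, ha, e⟩, b, hb, h2⟩, ⟨b', hb', le_rfl⟩, b', hb', le_rfl⟩
  · exact ⟨a, ⟨⟨a, ha, le_rfl⟩, a, ha, le_rfl⟩, ⟨b', hb', e⟩, a', ha', h1⟩

variable {𝓔 : Set (Set (X × X))}

omit [LinearOrder X] in
lemma dir (h : IsCoarse 𝓔) {E E'} (hE : E ∈ 𝓔) (hE' : E' ∈ 𝓔) : E ∪ E' ∈ 𝓔 :=
  h.sub _ (h.comp E hE E' hE') _ ((h.diag E hE).trans subset_union_left) (by
    rintro ⟨x, y⟩ (a | a)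
    exacts [⟨y, a, h.diag E' hE' rfl⟩, ⟨x, h.diag E hE rfl, a⟩])

lemma hull (h : IsLOCoarse 𝓔) {E} (hE : E ∈ 𝓔) : ∃ F ∈ 𝓔, ∀ x, conv (ball E x) ⊆ ball F x := by
  obtain ⟨F, hF, a⟩ := h.compat E hE
  obtain ⟨G, hG, b⟩ := h.compat _ (h.coarse.inv E hE)
  refine ⟨_, dir h.coarse hF (h.coarse.comp E hE G hG), fun x y ⟨⟨p, hp, h1⟩, q, hq, h2⟩ => ?_⟩
  rcases lt_trichotomy x y with e | rfl | e
  · exact Or.inl (by_contra fun c => (a x y e c q hq).not_ge h2)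
  · exact Or.inl (h.coarse.diag F hF rfl)
  · refine Or.inr ⟨p, hp, ?_⟩
    rcases h1.eq_or_lt with rfl | h1
    · exact h.coarse.diag G hG rfl
    · exact by_contra fun c => (b p y h1 c x hp).not_gt e

lemma star (h : IsLOCoarse 𝓔) {E} (hE : E ∈ 𝓔) : ∃ F ∈ 𝓔, ∀ x y z,
    z ∈ I (ball E x) → z ∈ I (ball E y) → ball E y ⊆ ball F x := by
  obtain ⟨F, hF, a⟩ := hull h hE
  refine ⟨_, h.coarse.comp _ hF _ (h.coarse.comp _ (h.coarse.inv F hF) E hE),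
    fun x y z hx hy w hw => ?_⟩
  obtain ⟨p, h1, h2⟩ := meet hx hy
  exact ⟨p, a x h1, y, a y h2, hw⟩

def Z (𝓔 : Set (Set (X × X))) : Set (LowerSet X ×ₗ Bool) := {z | ∃ E ∈ 𝓔, ∃ x, z ∈ I (ball E x)}

def R (𝓔 : Set (Set (X × X))) (E : Set (X × X)) : Set (Z 𝓔 × Z 𝓔) :=
  {p | p.1 = p.2 ∨ ∃ x, p.1.1 ∈ I (ball E x) ∧ p.2.1 ∈ I (ball E x)}

def 𝓕 (𝓔 : Set (Set (X × X))) : Set (Set (Z 𝓔 × Z 𝓔)) :=
  {G | diagonal _ ⊆ G ∧ ∃ E ∈ 𝓔, G ⊆ R 𝓔 E}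

lemma R_mono {E E'} (h : E ⊆ E') : R 𝓔 E ⊆ R 𝓔 E' := fun _ hp =>
  hp.imp_right fun ⟨x, a, b⟩ =>
    have e : I (ball E x) ⊆ I (ball E' x) := I_mono fun _ c => h c
    ⟨x, e a, e b⟩

lemma R_mem {E} (hE : E ∈ 𝓔) : R 𝓔 E ∈ 𝓕 𝓔 := ⟨fun _ hp => Or.inl hp, E, hE, subset_rfl⟩

lemma coarseZ (h : IsLOCoarse 𝓔) : IsCoarse (𝓕 𝓔) where
  diag := fun _ hG => hG.1
  inv := fun _ ⟨a, E, hE, b⟩ => ⟨fun _ hp => a hp.symm, E, hE, fun _ hp =>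
    (b hp).imp Eq.symm fun ⟨x, c, d⟩ => ⟨x, d, c⟩⟩
  sub := fun _ ⟨_, E, hE, b⟩ _ c d => ⟨c, E, hE, d.trans b⟩
  comp := by
    rintro G ⟨a, E, hE, b⟩ G' ⟨a', E', hE', b'⟩
    obtain ⟨F, hF, s⟩ := star h (dir h.coarse hE hE')
    refine ⟨fun p hp => ⟨p.2, a hp, a' rfl⟩, _, dir h.coarse (dir h.coarse hE hE') hF, ?_⟩
    rintro ⟨z, v⟩ ⟨w, h1, h2⟩
    have h1 := R_mono (E' := E ∪ E') subset_union_left (b h1)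
    have h2 := R_mono (E' := E ∪ E') subset_union_right (b' h2)
    rcases h1 with e | ⟨x, c, d⟩
    · obtain rfl : z = w := e
      exact R_mono subset_union_left h2
    rcases h2 with e | ⟨y, c', d'⟩
    · obtain rfl : w = v := e
      exact R_mono subset_union_left (Or.inr ⟨x, c, d⟩)
    exact Or.inr ⟨x, I_mono (fun _ => Or.inl) c, I_mono (fun _ t => Or.inr (s x y _ d c' t)) d'⟩

lemma baseZ (h : IsLOCoarse 𝓔) {G} (hG : G ∈ 𝓕 𝓔) :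
    ∃ B ∈ 𝓕 𝓔, G ⊆ B ∧ ∀ z, ∃ a b, a ≤ b ∧ ball B z = Icc a b := by
  obtain ⟨-, E, hE, hG⟩ := hG
  obtain ⟨F, hF, s⟩ := star h hE
  let U : Z 𝓔 → Set X := fun z => {p | ∃ x, z.1 ∈ I (ball E x) ∧ p ∈ ball E x}
  have hU : ∀ (z : Z 𝓔) x, z.1 ∈ I (ball E x) → I (ball E x) ⊆ I (U z) ∧ I (U z) ⊆ I (ball F x) :=
    fun z x hx => ⟨I_mono fun p hp => ⟨x, hx, hp⟩, I_mono fun p ⟨y, hy, hp⟩ => s x y _ hx hy hp⟩
  refine ⟨{p | p.1 = p.2 ∨ (∃ x, p.1.1 ∈ I (ball E x)) ∧ p.2.1 ∈ I (U p.1)},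
    ⟨fun _ => Or.inl, F, hF, fun p hp => hp.imp_right fun ⟨⟨x, a⟩, b⟩ =>
      ⟨x, (hU _ x a).2 ((hU _ x a).1 a), (hU _ x a).2 b⟩⟩,
    fun p hp => (hG hp).imp_right fun ⟨x, a, b⟩ => ⟨⟨x, a⟩, (hU _ x a).1 b⟩, fun z => ?_⟩
  by_cases hz : ∃ x, z.1 ∈ I (ball E x)
  · obtain ⟨x, hx⟩ := hz
    have hm := (hU z x hx).1 hx
    have hl := hm.1.trans hm.2
    refine ⟨⟨lo (U z), F, hF, x, (hU z x hx).2 ⟨le_rfl, hl⟩⟩,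
      ⟨hi (U z), F, hF, x, (hU z x hx).2 ⟨hl, le_rfl⟩⟩, hl, ?_⟩
    ext w
    exact ⟨fun a => a.elim (fun e => (show z = w from e) ▸ hm) fun b => b.2,
      fun a => Or.inr ⟨⟨x, hx⟩, a⟩⟩
  · refine ⟨z, z, le_rfl, ?_⟩
    ext w
    rw [Icc_self]
    exact ⟨fun a => a.elim Eq.symm fun b => absurd b.1 hz, fun a => Or.inl a.symm⟩

theorem result (X : Type u) [LinearOrder X] (𝓔 : Set (Set (X × X))) (h : IsLOCoarse 𝓔) :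
    ∃ (Z : Type u) (_ : LinearOrder Z) (𝓕 : Set (Set (Z × Z))), IsLOCoarse 𝓕 ∧
      HasIntervalBase 𝓕 ∧ ∃ (Y : Set Z) (f : X ≃ Y), StrictMono f ∧
        MacroUniform 𝓔 (restrict 𝓕 Y) f ∧ MacroUniform (restrict 𝓕 Y) 𝓔 f.symm := by
  have self : ∀ {E} {x y : X}, y ∈ ball E x → hi {y} ∈ I (ball E x) := fun {E x y} a =>
    emb_mem.2 ⟨⟨y, a, le_rfl⟩, y, a, le_rfl⟩
  let g : X → Z 𝓔 := fun x => ⟨hi {x}, let ⟨E, hE, a⟩ := h.conn x x; ⟨E, hE, x, self a⟩⟩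
  have hg : StrictMono g := fun x y e => lt_of_not_ge fun c => by
    obtain ⟨b, rfl, d⟩ := hi_le_hi.1 c
    exact e.not_ge d
  refine ⟨Z 𝓔, inferInstance, 𝓕 𝓔, ⟨coarseZ h, ?_, fun G hG => ?_⟩,
    ⟨{B | B ∈ 𝓕 𝓔 ∧ ∀ z, ∃ a b, a ≤ b ∧ ball B z = Icc a b}, fun _ a => a.1, fun G hG => ?_,
      fun _ a => a.2⟩, range g, Equiv.ofInjective g hg.injective, hg, fun E hE => ?_, ?_⟩
  · rintro ⟨z, E, hE, x, a⟩ ⟨w, E', hE', y, b⟩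
    obtain ⟨F, hF, c⟩ := h.conn x y
    exact ⟨_, R_mem (dir h.coarse hE (h.coarse.comp F hF E' hE')), Or.inr
      ⟨x, I_mono (fun _ => Or.inl) a, I_mono (fun _ t => Or.inr ⟨y, c, t⟩) b⟩⟩
  · obtain ⟨B, hB, a, b⟩ := baseZ h hG
    refine ⟨B, hB, fun z w e c z' d => ?_⟩
    obtain ⟨p, q, -, r⟩ := b z
    have h1 : z ∈ Icc p q := r ▸ hB.1 rfl
    have h2 : z' ∈ Icc p q := r ▸ a d
    exact h2.2.trans_lt (lt_of_not_ge fun t => c (r ▸ ⟨h1.1.trans e.le, t⟩))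
  · obtain ⟨B, hB, a, b⟩ := baseZ h hG
    exact ⟨B, ⟨hB, b⟩, a⟩
  · refine ⟨_, ⟨_, R_mem hE, rfl⟩, ?_⟩
    rintro x _ ⟨y, a, rfl⟩
    exact Or.inr ⟨x, self (h.coarse.diag E hE rfl), self a⟩
  · rintro _ ⟨G, ⟨-, E, hE, a⟩, rfl⟩
    obtain ⟨F, hF, b⟩ := hull h hE
    refine ⟨_, h.coarse.comp _ (h.coarse.inv F hF) F hF, ?_⟩
    rintro ⟨_, x, rfl⟩ _ ⟨⟨_, y, rfl⟩, c, rfl⟩
    rw [Equiv.ofInjective_symm_apply, Equiv.ofInjective_symm_apply]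
    rcases a c with e | ⟨p, d, e⟩
    · obtain rfl := hg.injective e
      exact ⟨x, h.coarse.diag F hF rfl, h.coarse.diag F hF rfl⟩
    · exact ⟨p, b p (emb_mem.1 d), b p (emb_mem.1 e)⟩

end Pool.Agent.Results.MP_54b381_gt.Embed
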